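import Mathlib

/-!
# Parry's invariant density of `β x + α` mod 1
-/

set_option autoImplicit false

open Set Filter Topology Function MeasureTheory

namespace Pool.Agent.Q188.PD

/-- the map on the closed unit interval -/
noncomputable def T (α β s : ℝ) : ℝ := if β * s + α < 1 then β * s + α else β * s + α - 1

/-- the digit -/
noncomputable def dg (α β s : ℝ) : ℝ := if β * s + α < 1 then 0 else 1

/-- indicator of `y < s` -/
noncomputable def χ (y s : ℝ) : ℝ := if y < s then 1 else 0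

lemma χ_nonneg (y s : ℝ) : 0 ≤ χ y s := by unfold χ; split_ifs <;> norm_num
lemma χ_le_one (y s : ℝ) : χ y s ≤ 1 := by unfold χ; split_ifs <;> norm_num

section

variable {α β : ℝ}

lemma dg_nonneg (s : ℝ) : 0 ≤ dg α β s := by unfold dg; split_ifs <;> norm_num
lemma dg_le_one (s : ℝ) : dg α β s ≤ 1 := by unfold dg; split_ifs <;> norm_num

lemma T_eq (s : ℝ) : T α β s = β * s + α - dg α β s := by
  unfold T dg; split_ifs <;> ring

lemma T_mem (hβ : 1 < β) (hα : 0 ≤ α) (hαβ : α + β ≤ 2) {s : ℝ} (hs : s ∈ Icc (0 : ℝ) 1) :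
    T α β s ∈ Icc (0 : ℝ) 1 := by
  have h1 : 0 ≤ β * s := mul_nonneg (by linarith) hs.1
  have h2 : β * s ≤ β := by nlinarith [hs.2]
  unfold T
  split_ifs with h
  · exact ⟨by linarith, h.le⟩
  · push Not at h
    exact ⟨by linarith, by linarith⟩

lemma T_mem' (hβ : 1 < β) (hα : 0 ≤ α) (hαβ : α + β ≤ 2) {s : ℝ} (hs : s ∈ Ico (0 : ℝ) 1) :
    T α β s ∈ Ico (0 : ℝ) 1 := by
  have h1 : 0 ≤ β * s := mul_nonneg (by linarith) hs.1
  have h2 : β * s < β := by nlinarith [hs.2]
  unfold T
  split_ifs with h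
  · exact ⟨by linarith, h⟩
  · push Not at h
    exact ⟨by linarith, by linarith⟩

lemma iter_mem (hβ : 1 < β) (hα : 0 ≤ α) (hαβ : α + β ≤ 2) {s : ℝ} (hs : s ∈ Icc (0 : ℝ) 1)
    (i : ℕ) : (T α β)^[i] s ∈ Icc (0 : ℝ) 1 := by
  induction i with
  | zero => exact hs
  | succ i ih => rw [iterate_succ_apply']; exact T_mem hβ hα hαβ ih

lemma iter_mem' (hβ : 1 < β) (hα : 0 ≤ α) (hαβ : α + β ≤ 2) {s : ℝ} (hs : s ∈ Ico (0 : ℝ) 1)
    (i : ℕ) : (T α β)^[i] s ∈ Ico (0 : ℝ) 1 := by
  induction i with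
  | zero => exact hs
  | succ i ih => rw [iterate_succ_apply']; exact T_mem' hβ hα hαβ ih

/-- the sum of the digits -/
lemma digit_sum (hβ : 1 < β) (hα : 0 ≤ α) (hαβ : α + β ≤ 2) {s : ℝ} (hs : s ∈ Icc (0 : ℝ) 1) :
    HasSum (fun i : ℕ => (β⁻¹) ^ (i + 1) * dg α β ((T α β)^[i] s)) (s + α / (β - 1)) := by
  have hβ0 : 0 < β := by linarith
  have hβ1 : β - 1 ≠ 0 := by linarith
  rw [hasSum_iff_tendsto_nat_of_nonneg (fun i => mul_nonneg (by positivity) (dg_nonneg _))]
  have hpart : ∀ N : ℕ, ∑ i ∈ Finset.range N, (β⁻¹) ^ (i + 1) * dg α β ((T α β)^[i] s) =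
      s + α / (β - 1) - (β⁻¹) ^ N * ((T α β)^[N] s + α / (β - 1)) := by
    intro N
    induction N with
    | zero => simp
    | succ N ih =>
      rw [Finset.sum_range_succ, ih, iterate_succ_apply', T_eq]
      have h1 : (β⁻¹) ^ N = β * (β⁻¹) ^ (N + 1) := by
        rw [pow_succ]; field_simp
      rw [h1]
      field_simp
      ring
  simp only [hpart]
  have h1 : Tendsto (fun N : ℕ => (β⁻¹) ^ N * ((T α β)^[N] s + α / (β - 1))) atTop (𝓝 0) := by
    have h2 : Tendsto (fun N : ℕ => (β⁻¹) ^ N * (1 + α / (β - 1))) atTop (𝓝 0) := by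
      have := (tendsto_pow_atTop_nhds_zero_of_lt_one (by positivity : (0 : ℝ) ≤ β⁻¹)
        (inv_lt_one_of_one_lt₀ hβ)).mul_const (1 + α / (β - 1))
      rwa [zero_mul] at this
    have ha : 0 ≤ α / (β - 1) := div_nonneg hα (by linarith)
    refine squeeze_zero (fun N => ?_) (fun N => ?_) h2
    · exact mul_nonneg (by positivity) (add_nonneg (iter_mem hβ hα hαβ hs N).1 ha)
    · exact mul_le_mul_of_nonneg_left (by linarith [(iter_mem hβ hα hαβ hs N).2]) (by positivity)
  have h3 := (tendsto_const_nhds (x := s + α / (β - 1)) (f := atTop (α := ℕ))).sub h1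
  rwa [sub_zero] at h3

/-- Parry's density -/
noncomputable def h (α β y : ℝ) : ℝ :=
  ∑' i : ℕ, (β⁻¹) ^ i * (χ y ((T α β)^[i] 1) - χ y ((T α β)^[i] 0))

lemma geo (hβ : 1 < β) : Summable (fun i : ℕ => (β⁻¹) ^ i) :=
  summable_geometric_of_lt_one (by positivity) (inv_lt_one_of_one_lt₀ hβ)

lemma summable_bdd (hβ : 1 < β) {u : ℕ → ℝ} (hu : ∀ i, |u i| ≤ 1) :
    Summable (fun i : ℕ => (β⁻¹) ^ i * u i) := by
  have hβ0 : 0 < β := by linarith
  refine Summable.of_norm_bounded (geo hβ) fun i => ?_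
  rw [Real.norm_eq_abs, abs_mul, abs_of_pos (by positivity)]
  calc (β⁻¹) ^ i * |u i| ≤ (β⁻¹) ^ i * 1 := mul_le_mul_of_nonneg_left (hu i) (by positivity)
    _ = (β⁻¹) ^ i := mul_one _

lemma abs_diff_le {a b : ℝ} (ha : 0 ≤ a) (ha1 : a ≤ 1) (hb : 0 ≤ b) (hb1 : b ≤ 1) :
    |a - b| ≤ 1 := by
  rw [abs_le]; constructor <;> linarith

lemma h_hasSum (hβ : 1 < β) (y : ℝ) :
    HasSum (fun i : ℕ => (β⁻¹) ^ i * (χ y ((T α β)^[i] 1) - χ y ((T α β)^[i] 0))) (h α β y) :=
  (summable_bdd hβ fun _ => abs_diff_le (χ_nonneg _ _) (χ_le_one _ _) (χ_nonneg _ _)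
    (χ_le_one _ _)).hasSum

lemma h_bound (hβ : 1 < β) (y : ℝ) : |h α β y| ≤ ∑' i : ℕ, (β⁻¹) ^ i := by
  have hβ0 : 0 < β := by linarith
  refine (h_hasSum hβ y).norm_le_of_bounded (geo hβ).hasSum fun i => ?_
  rw [Real.norm_eq_abs, abs_mul, abs_of_pos (by positivity)]
  calc (β⁻¹) ^ i * |_| ≤ (β⁻¹) ^ i * 1 := mul_le_mul_of_nonneg_left
        (abs_diff_le (χ_nonneg _ _) (χ_le_one _ _) (χ_nonneg _ _) (χ_le_one _ _)) (by positivity)
    _ = (β⁻¹) ^ i := mul_one _

lemma q_eq (hβ : 1 < β) {s y : ℝ} (hs : s ∈ Icc (0 : ℝ) 1)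
    (hy : y ∈ Ico (0 : ℝ) 1) :
    (if α ≤ y then χ ((y - α) / β) s else 0) + (if y < α + β - 1 then χ ((y + 1 - α) / β) s else 0)
      = dg α β s + χ y (T α β s) - χ y α := by
  have hβ0 : 0 < β := by linarith
  have e1 : (y - α) / β < s ↔ y < β * s + α := by
    rw [div_lt_iff₀ hβ0]; constructor <;> intro h <;> linarith
  have e2 : (y + 1 - α) / β < s ↔ y < β * s + α - 1 := by
    rw [div_lt_iff₀ hβ0]; constructor <;> intro h <;> linarith
  have h0 : 0 ≤ β * s := mul_nonneg hβ0.le hs.1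
  have h1 : β * s ≤ β := by nlinarith [hs.2]
  have hy0 := hy.1
  have hy1 := hy.2
  by_cases hd : β * s + α < 1
  · simp only [χ, dg, T, if_pos hd, e1, e2]
    have n2 : ¬ y < β * s + α - 1 := by push Not; linarith
    simp only [if_neg n2, ite_self, add_zero]
    split_ifs <;> first | (exfalso; linarith) | norm_num
  · simp only [χ, dg, T, if_neg hd, e1, e2]
    push Not at hd
    have p1 : y < β * s + α := by linarith
    simp only [if_pos p1]
    split_ifs <;> first | (exfalso; linarith) | norm_num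

/-- the density is a fixed point of the transfer operator -/
lemma transfer (hβ : 1 < β) (hα : 0 ≤ α) (hαβ : α + β ≤ 2) {y : ℝ} (hy : y ∈ Ico (0 : ℝ) 1) :
    (if α ≤ y then h α β ((y - α) / β) else 0) +
      (if y < α + β - 1 then h α β ((y + 1 - α) / β) else 0) = β * h α β y := by
  have hβ0 : 0 < β := by linarith
  have hI0 : (0 : ℝ) ∈ Icc (0 : ℝ) 1 := ⟨le_rfl, zero_le_one⟩
  have hI1 : (1 : ℝ) ∈ Icc (0 : ℝ) 1 := ⟨zero_le_one, le_rfl⟩
  -- left-hand side
  have hL : HasSum (fun i : ℕ => (β⁻¹) ^ i *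
      (if α ≤ y then χ ((y - α) / β) ((T α β)^[i] 1) - χ ((y - α) / β) ((T α β)^[i] 0) else 0))
      (if α ≤ y then h α β ((y - α) / β) else 0) := by
    split_ifs
    · exact h_hasSum hβ _
    · simp
  have hR : HasSum (fun i : ℕ => (β⁻¹) ^ i *
      (if y < α + β - 1 then χ ((y + 1 - α) / β) ((T α β)^[i] 1) -
        χ ((y + 1 - α) / β) ((T α β)^[i] 0) else 0))
      (if y < α + β - 1 then h α β ((y + 1 - α) / β) else 0) := by
    split_ifs
    · exact h_hasSum hβ _
    · simp
  have hLR := hL.add hR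
  -- right-hand side
  have hd := ((digit_sum hβ hα hαβ hI1).sub (digit_sum hβ hα hαβ hI0)).mul_left β
  have hh := h_hasSum (α := α) hβ y
  have hh1 : HasSum (fun i : ℕ => (β⁻¹) ^ (i + 1) * (χ y ((T α β)^[i + 1] 1) -
      χ y ((T α β)^[i + 1] 0))) (h α β y - 1) := by
    have := (hasSum_nat_add_iff' 1).2 hh
    simp only [Finset.sum_range_one, pow_zero, one_mul, iterate_zero, id] at this
    have e : χ y 1 - χ y 0 = 1 := by
      unfold χ
      rw [if_pos hy.2, if_neg (not_lt.2 hy.1)]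
      norm_num
    rwa [e] at this
  have hh2 := hh1.mul_left β
  have hRHS := hd.add hh2
  have hfun : (fun i : ℕ => (β⁻¹) ^ i *
      (if α ≤ y then χ ((y - α) / β) ((T α β)^[i] 1) - χ ((y - α) / β) ((T α β)^[i] 0) else 0) +
      (β⁻¹) ^ i * (if y < α + β - 1 then χ ((y + 1 - α) / β) ((T α β)^[i] 1) -
        χ ((y + 1 - α) / β) ((T α β)^[i] 0) else 0)) =
      fun i : ℕ => β * ((β⁻¹) ^ (i + 1) * dg α β ((T α β)^[i] 1) -
        (β⁻¹) ^ (i + 1) * dg α β ((T α β)^[i] 0)) +
      β * ((β⁻¹) ^ (i + 1) * (χ y ((T α β)^[i + 1] 1) - χ y ((T α β)^[i + 1] 0))) := by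
    funext i
    have h1 := q_eq (α := α) hβ (iter_mem hβ hα hαβ hI1 i) hy
    have h0 := q_eq (α := α) hβ (iter_mem hβ hα hαβ hI0 i) hy
    rw [← iterate_succ_apply' (T α β)] at h1 h0
    have hp : β * (β⁻¹) ^ (i + 1) = (β⁻¹) ^ i := by
      rw [pow_succ]; field_simp
    have e : ∀ P : Prop, ∀ _ : Decidable P, ∀ a b : ℝ, (if P then a - b else 0) =
        (if P then a else 0) - (if P then b else 0) := by
      intro P _ a b; split_ifs <;> ring
    simp only [e]
    linear_combination (β⁻¹) ^ i * (h1 - h0) + (χ y ((T α β)^[i + 1] 1) -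
      χ y ((T α β)^[i + 1] 0) + dg α β ((T α β)^[i] 1) - dg α β ((T α β)^[i] 0)) * (-hp)
  rw [hfun] at hLR
  rw [hLR.unique hRHS]
  ring

/-! ### Positivity -/

/-- every bound on the right branch gives nonnegativity everywhere -/
lemma h_nonneg (hβ : 1 < β) (hα : 0 ≤ α) (hαβ : α + β ≤ 2)
    (hpos : ∀ y ∈ Ico (0 : ℝ) 1, 1 ≤ β * y + α → 0 ≤ h α β y) :
    ∀ y ∈ Ico (0 : ℝ) 1, 0 ≤ h α β y := by
  have hβ0 : 0 < β := by linarith
  set C : ℝ := ∑' i : ℕ, (β⁻¹) ^ i with hC
  have hC0 : 0 ≤ C := tsum_nonneg fun i => by positivity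
  have hind : ∀ n : ℕ, ∀ y ∈ Ico (0 : ℝ) 1, -(C * (β⁻¹) ^ n) ≤ h α β y := by
    intro n
    induction n with
    | zero =>
      intro y _
      have := (abs_le.1 (h_bound (α := α) hβ y)).1
      rw [pow_zero, mul_one]
      exact this
    | succ n ih =>
      intro y hy
      have ht := transfer hβ hα hαβ hy
      have hy0 := hy.1
      have hy1 := hy.2
      have hCn : 0 ≤ C * (β⁻¹) ^ n := by positivity
      have h1 : -(C * (β⁻¹) ^ n) ≤ if α ≤ y then h α β ((y - α) / β) else 0 := by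
        split_ifs with hc
        · apply ih
          constructor
          · exact div_nonneg (by linarith) hβ0.le
          · rw [div_lt_one hβ0]; linarith
        · linarith
      have h2 : 0 ≤ if y < α + β - 1 then h α β ((y + 1 - α) / β) else 0 := by
        split_ifs with hc
        · apply hpos
          · constructor
            · exact div_nonneg (by linarith) hβ0.le
            · rw [div_lt_one hβ0]; linarith
          · rw [mul_div_cancel₀ _ hβ0.ne']
            linarith
        · exact le_rfl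
      have h3 : -(C * (β⁻¹) ^ n) ≤ β * h α β y := by linarith
      have h4 : C * (β⁻¹) ^ n = β * (C * (β⁻¹) ^ (n + 1)) := by
        rw [pow_succ]; field_simp
      rw [h4] at h3
      nlinarith
  intro y hy
  have hlim : Tendsto (fun n : ℕ => -(C * (β⁻¹) ^ n)) atTop (𝓝 0) := by
    have := ((tendsto_pow_atTop_nhds_zero_of_lt_one (by positivity : (0 : ℝ) ≤ β⁻¹)
        (inv_lt_one_of_one_lt₀ hβ)).const_mul C).neg
    simpa using this
  exact le_of_tendsto hlim (Eventually.of_forall fun n => hind n y hy)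

/-- a positive lower bound -/
lemma h_pos (hβ : 1 < β) (hα : 0 ≤ α) (hαβ : α + β ≤ 2) {κ : ℝ} (hκ : 0 < κ)
    (hpos : ∀ y ∈ Ico (0 : ℝ) 1, 1 ≤ β * y + α → κ ≤ h α β y) :
    ∃ κ' : ℝ, 0 < κ' ∧ ∀ y ∈ Ico (0 : ℝ) 1, κ' ≤ h α β y := by
  have hβ0 : 0 < β := by linarith
  have hβ1 : β - 1 ≠ 0 := by linarith
  have hnn := h_nonneg hβ hα hαβ fun y hy hc => hκ.le.trans (hpos y hy hc)
  set a : ℝ := α / (β - 1) with ha
  have ha0 : 0 ≤ a := div_nonneg hα (by linarith)
  have haα : a * (β - 1) = α := by rw [ha]; field_simp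
  have hind : ∀ k : ℕ, ∀ y ∈ Ico (0 : ℝ) 1, y + a < β ^ k * (α + β - 1 + a) →
      κ * (β⁻¹) ^ (k + 1) ≤ h α β y := by
    intro k
    have hR : ∀ (k : ℕ) (y : ℝ), y ∈ Ico (0 : ℝ) 1 → y < α + β - 1 →
        κ * (β⁻¹) ^ (k + 1) ≤ h α β y := by
      intro k y hy hc
      have ht := transfer hβ hα hαβ hy
      have hy0 := hy.1
      have hy1 := hy.2
      rw [if_pos hc] at ht
      have h1 : 0 ≤ if α ≤ y then h α β ((y - α) / β) else 0 := by
        split_ifs with hc
        · apply hnn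
          constructor
          · exact div_nonneg (by linarith) hβ0.le
          · rw [div_lt_one hβ0]; linarith
        · exact le_rfl
      have h2 : κ ≤ h α β ((y + 1 - α) / β) := by
        apply hpos
        · constructor
          · exact div_nonneg (by linarith) hβ0.le
          · rw [div_lt_one hβ0]; linarith
        · rw [mul_div_cancel₀ _ hβ0.ne']
          linarith
      have h3 : κ ≤ β * h α β y := by linarith
      have h4 : κ * β⁻¹ ≤ h α β y := by
        rw [← div_eq_mul_inv, div_le_iff₀ hβ0]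
        linarith
      refine le_trans ?_ h4
      refine mul_le_mul_of_nonneg_left ?_ hκ.le
      rw [pow_succ]
      have h5 : (β⁻¹) ^ k ≤ 1 := pow_le_one₀ (by positivity) (inv_lt_one_of_one_lt₀ hβ).le
      have h6 : 0 < β⁻¹ := by positivity
      nlinarith
    induction k with
    | zero =>
      intro y hy hlt
      apply hR 0 y hy
      simp only [pow_zero, one_mul] at hlt
      linarith
    | succ k ih =>
      intro y hy hlt
      by_cases hc : y < α + β - 1
      · exact hR (k + 1) y hy hc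
      · push Not at hc
        have hy0 := hy.1
        have hy1 := hy.2
        have hαy : α ≤ y := by linarith
        have ht := transfer hβ hα hαβ hy
        rw [if_pos hαy, if_neg (not_lt.2 hc), add_zero] at ht
        have hmem : (y - α) / β ∈ Ico (0 : ℝ) 1 := by
          constructor
          · exact div_nonneg (by linarith) hβ0.le
          · rw [div_lt_one hβ0]; linarith
        have h1 := ih _ hmem (by
          have e : (y - α) / β + a = (y + a) / β := by
            field_simp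
            linarith
          rw [e, div_lt_iff₀ hβ0]
          calc y + a < β ^ (k + 1) * (α + β - 1 + a) := hlt
            _ = β ^ k * (α + β - 1 + a) * β := by ring)
        rw [ht] at h1
        rw [pow_succ, ← mul_assoc, ← div_eq_mul_inv, div_le_iff₀ hβ0]
        linarith
  obtain ⟨k, hk⟩ := pow_unbounded_of_one_lt ((1 + a) / (α + β - 1 + a)) hβ
  have hden : 0 < α + β - 1 + a := by linarith
  rw [div_lt_iff₀ hden] at hk
  refine ⟨κ * (β⁻¹) ^ (k + 1), by positivity, fun y hy => hind k y hy ?_⟩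
  have := hy.2
  linarith

/-- positivity on the right branch, interior case -/
lemma right_pos (hβ : 1 < β) (hα : 0 ≤ α) (hαβ : α + β ≤ 2) (hβ2 : β * β < β + 1)
    (hc : α ≤ 1 - 1 / β) :
    ∃ κ : ℝ, 0 < κ ∧ ∀ y ∈ Ico (0 : ℝ) 1, 1 ≤ β * y + α → κ ≤ h α β y := by
  have hβ0 : 0 < β := by linarith
  have hβ1 : β - 1 ≠ 0 := by linarith
  have hI0 : (0 : ℝ) ∈ Icc (0 : ℝ) 1 := ⟨le_rfl, zero_le_one⟩
  have hI1 : (1 : ℝ) ∈ Icc (0 : ℝ) 1 := ⟨zero_le_one, le_rfl⟩
  have hdA : HasSum (fun i : ℕ => (β⁻¹) ^ i * dg α β ((T α β)^[i] 0)) (β * (α / (β - 1))) := by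
    have h1 := (digit_sum hβ hα hαβ hI0).mul_left β
    rw [zero_add] at h1
    refine h1.congr_fun ?_
    intro i
    rw [pow_succ]; field_simp
  have hχd : ∀ y s : ℝ, 1 ≤ β * y + α → χ y s ≤ dg α β s := by
    intro y s hy
    unfold χ dg
    split_ifs with h1 h2
    · exfalso; nlinarith
    · exact le_rfl
    · exact le_rfl
    · exact zero_le_one
  have hSA : ∀ y : ℝ, HasSum (fun i : ℕ => (β⁻¹) ^ i * χ y ((T α β)^[i] 0))
      (∑' i : ℕ, (β⁻¹) ^ i * χ y ((T α β)^[i] 0)) := fun y =>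
    (summable_bdd hβ fun i => by rw [abs_of_nonneg (χ_nonneg _ _)]; exact χ_le_one _ _).hasSum
  have hSB : ∀ y : ℝ, HasSum (fun i : ℕ => (β⁻¹) ^ i * χ y ((T α β)^[i] 1))
      (∑' i : ℕ, (β⁻¹) ^ i * χ y ((T α β)^[i] 1)) := fun y =>
    (summable_bdd hβ fun i => by rw [abs_of_nonneg (χ_nonneg _ _)]; exact χ_le_one _ _).hasSum
  have hh : ∀ y : ℝ, h α β y = (∑' i : ℕ, (β⁻¹) ^ i * χ y ((T α β)^[i] 1)) -
      ∑' i : ℕ, (β⁻¹) ^ i * χ y ((T α β)^[i] 0) := by
    intro y
    refine (h_hasSum hβ y).unique ?_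
    simpa only [mul_sub] using (hSB y).sub (hSA y)
  have hB1 : ∀ y ∈ Ico (0 : ℝ) 1, 1 ≤ ∑' i : ℕ, (β⁻¹) ^ i * χ y ((T α β)^[i] 1) := by
    intro y hy
    have h1 := (hSB y).summable.sum_le_tsum {0} (fun i _ => mul_nonneg (by positivity)
      (χ_nonneg _ _))
    simp only [Finset.sum_singleton, pow_zero, one_mul, iterate_zero, id] at h1
    unfold χ at h1 ⊢
    rwa [if_pos hy.2] at h1
  have hAle : ∀ y ∈ Ico (0 : ℝ) 1, 1 ≤ β * y + α →
      ∑' i : ℕ, (β⁻¹) ^ i * χ y ((T α β)^[i] 0) ≤ β * (α / (β - 1)) := by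
    intro y _ hyc
    exact hasSum_le (fun i => mul_le_mul_of_nonneg_left (hχd _ _ hyc) (by positivity)) (hSA y) hdA
  rcases lt_or_eq_of_le hc with hlt | heq
  · refine ⟨1 - β * (α / (β - 1)), ?_, fun y hy hyc => ?_⟩
    · have h1 : α / (β - 1) < 1 / β := by
        rw [div_lt_div_iff₀ (by linarith) hβ0]
        have h2 : α * β < (1 - 1 / β) * β := mul_lt_mul_of_pos_right hlt hβ0
        have h3 : (1 - 1 / β) * β = β - 1 := by field_simp
        linarith
      have h4 : β * (α / (β - 1)) < β * (1 / β) := mul_lt_mul_of_pos_left h1 hβ0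
      rw [mul_one_div_cancel hβ0.ne'] at h4
      linarith
    · rw [hh y]
      have := hB1 y hy
      have := hAle y hy hyc
      linarith
  · -- boundary case
    have hab : β * (α / (β - 1)) = 1 := by
      rw [heq]; field_simp
    have hαβ' : α * β = β - 1 := by rw [heq]; field_simp
    have hα1 : α < 1 := by
      by_contra hcon
      push Not at hcon
      nlinarith
    have hA2 : (T α β)^[2] 0 = (T α β)^[1] 1 := by
      have e1 : T α β 0 = α := by
        unfold T
        rw [if_pos (by nlinarith)]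
        ring
      have e2 : T α β 1 = α + β - 1 := by
        unfold T
        rw [if_neg (by nlinarith)]
        ring
      have e3 : T α β α = α + β - 1 := by
        unfold T
        rw [if_pos (by nlinarith)]
        linarith
      change T α β (T α β 0) = T α β 1
      rw [e1, e2, e3]
    have hAB : ∀ k : ℕ, (T α β)^[k + 2] 0 = (T α β)^[k + 1] 1 := by
      intro k
      induction k with
      | zero => exact hA2
      | succ k ih =>
        rw [show k + 1 + 2 = (k + 2) + 1 by ring, iterate_succ_apply', ih,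
          ← iterate_succ_apply' (T α β)]
    have hex : ∃ k : ℕ, dg α β ((T α β)^[k + 1] 1) = 1 := by
      by_contra hcon
      push Not at hcon
      have h0 : ∀ i, dg α β ((T α β)^[i] 0) = 0 := by
        intro i
        match i with
        | 0 =>
          change dg α β 0 = 0
          unfold dg
          rw [if_pos (by linarith)]
        | 1 =>
          have e1 : (T α β)^[1] 0 = α := by
            change T α β 0 = α
            unfold T
            rw [if_pos (by nlinarith)]
            ring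
          rw [e1]
          unfold dg
          rw [if_pos (by nlinarith)]
        | (k + 2) =>
          rw [hAB k]
          have h1 := hcon k
          unfold dg at h1 ⊢
          split_ifs at h1 ⊢ with h2
          · rfl
          · exact absurd rfl h1
      have h1 : HasSum (fun i : ℕ => (β⁻¹) ^ i * dg α β ((T α β)^[i] 0)) 0 := by
        simp only [h0, mul_zero]
        exact hasSum_zero
      have h2 := hdA.unique h1
      rw [hab] at h2
      exact one_ne_zero h2
    obtain ⟨k, hk⟩ := hex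
    refine ⟨(β⁻¹) ^ (k + 2), by positivity, fun y hy hyc => ?_⟩
    rw [hh y]
    rcases lt_or_ge y ((T α β)^[k + 1] 1) with hyk | hyk
    · have h1 := (hSB y).summable.sum_le_tsum {0, k + 1} (fun i _ => mul_nonneg (by positivity)
        (χ_nonneg _ _))
      rw [Finset.sum_pair (by omega)] at h1
      simp only [pow_zero, one_mul, iterate_zero, id] at h1
      have e1 : χ y 1 = 1 := if_pos hy.2
      have e2 : χ y ((T α β)^[k + 1] 1) = 1 := if_pos hyk
      rw [e1, e2] at h1
      have h2 := hAle y hy hyc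
      rw [hab] at h2
      have h3 : (β⁻¹) ^ (k + 2) ≤ (β⁻¹) ^ (k + 1) :=
        pow_le_pow_of_le_one (by positivity) (inv_lt_one_of_one_lt₀ hβ).le (by omega)
      linarith
    · have h1 := hdA.sub (hSA y)
      have h2 := h1.summable.sum_le_tsum {k + 2} (fun i _ => by
        rw [← mul_sub]
        exact mul_nonneg (by positivity) (sub_nonneg.2 (hχd _ _ hyc)))
      rw [h1.tsum_eq] at h2
      simp only [Finset.sum_singleton] at h2
      rw [hAB k, hk, hab] at h2
      have e1 : χ y ((T α β)^[k + 1] 1) = 0 := if_neg (not_lt.2 hyk)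
      rw [e1] at h2
      have := hB1 y hy
      linarith

end

end Pool.Agent.Q188.PD
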