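import Pool.Agent.Q188.PD.Basic

/-!
# Transitivity of `β x + α` mod 1 from the positivity of Parry's density
-/

set_option autoImplicit false

open Set Filter Topology Function MeasureTheory

namespace Pool.Agent.Q188.PD

section

variable {α β : ℝ}

lemma measurable_h (hβ : 1 < β) : Measurable (h α β) := by
  have hχ : ∀ s : ℝ, Measurable fun y => χ y s := fun s =>
    Measurable.ite measurableSet_Iio measurable_const measurable_const
  refine measurable_of_tendsto_metrizable
    (f := fun (N : ℕ) y => ∑ i ∈ Finset.range N, (β⁻¹) ^ i *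
      (χ y ((T α β)^[i] 1) - χ y ((T α β)^[i] 0))) (fun N => ?_)
    (tendsto_pi_nhds.2 fun y => (h_hasSum hβ y).tendsto_sum_nat)
  exact Finset.measurable_sum _ fun i _ => ((hχ _).sub (hχ _)).const_mul _

/-- the density on the line -/
noncomputable def H (α β y : ℝ) : ENNReal :=
  (Ico (0 : ℝ) 1).indicator (fun y => ENNReal.ofReal (h α β y)) y

lemma measurable_H (hβ : 1 < β) : Measurable (H α β) :=
  (measurable_h hβ).ennreal_ofReal.indicator measurableSet_Ico

lemma H_mem {y : ℝ} (hy : y ∈ Ico (0 : ℝ) 1) : H α β y = ENNReal.ofReal (h α β y) :=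
  indicator_of_mem hy _

lemma H_notMem {y : ℝ} (hy : y ∉ Ico (0 : ℝ) 1) : H α β y = 0 :=
  indicator_of_notMem hy _

lemma measurable_T : Measurable (T α β) := by
  unfold T
  refine Measurable.ite ?_ (by fun_prop) (by fun_prop)
  exact measurableSet_lt (by fun_prop) measurable_const

lemma affine_lintegral (hβ : 0 < β) (γ : ℝ) {F : ℝ → ENNReal} (hF : Measurable F) :
    ∫⁻ z, F (β * z + γ) = ENNReal.ofReal β⁻¹ * ∫⁻ y, F y := by
  have h1 : ∫⁻ z, F (β * z + γ) = ∫⁻ w, F (w + γ) ∂(Measure.map (fun z => β * z) volume) := by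
    have hG : Measurable fun w => F (w + γ) := hF.comp (measurable_id.add_const γ)
    rw [lintegral_map hG (measurable_const_mul β)]
  rw [h1, Real.map_volume_mul_left hβ.ne', lintegral_smul_measure, lintegral_add_right_eq_self,
    abs_of_pos (by positivity), smul_eq_mul]

/-- the measure -/
noncomputable def μ (α β : ℝ) : Measure ℝ := volume.withDensity (H α β)

lemma preserving (hβ : 1 < β) (hα : 0 ≤ α) (hαβ : α + β ≤ 2)
    (hnn : ∀ y ∈ Ico (0 : ℝ) 1, 0 ≤ h α β y) : MeasurePreserving (T α β) (μ α β) (μ α β) := by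
  have hβ0 : 0 < β := by linarith
  refine ⟨measurable_T, ?_⟩
  ext S hS
  rw [Measure.map_apply measurable_T hS]
  unfold μ
  rw [withDensity_apply _ (measurable_T hS), withDensity_apply _ hS]
  rw [← lintegral_indicator (measurable_T hS), ← lintegral_indicator hS]
  set L : ℝ → ENNReal := fun y => if y < 1 then H α β ((y - α) / β) else 0 with hL
  set R : ℝ → ENNReal := fun y => if y < 0 then 0 else H α β ((y + 1 - α) / β) with hR
  have hLm : Measurable L := Measurable.ite measurableSet_Iio
    ((measurable_H hβ).comp (by fun_prop)) measurable_const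
  have hRm : Measurable R := Measurable.ite measurableSet_Iio measurable_const
    ((measurable_H hβ).comp (by fun_prop))
  have h1 : ∀ z, (T α β ⁻¹' S).indicator (H α β) z =
      S.indicator L (β * z + α) + S.indicator R (β * z + (α - 1)) := by
    intro z
    have e1 : (β * z + α - α) / β = z := by field_simp; ring
    have e2 : (β * z + (α - 1) + 1 - α) / β = z := by field_simp; ring
    by_cases hz : β * z + α < 1
    · have hT : T α β z = β * z + α := if_pos hz
      have hR0 : S.indicator R (β * z + (α - 1)) = 0 := by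
        have : R (β * z + (α - 1)) = 0 := if_pos (by linarith)
        by_cases hm : β * z + (α - 1) ∈ S
        · rw [indicator_of_mem hm, this]
        · rw [indicator_of_notMem hm]
      rw [hR0, add_zero]
      by_cases hm : β * z + α ∈ S
      · rw [indicator_of_mem hm, indicator_of_mem (by rw [mem_preimage, hT]; exact hm)]
        simp only [hL, if_pos hz, e1]
      · rw [indicator_of_notMem hm, indicator_of_notMem (by rw [mem_preimage, hT]; exact hm)]
    · have hT : T α β z = β * z + (α - 1) := by
        unfold T; rw [if_neg hz]; ring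
      have hL0 : S.indicator L (β * z + α) = 0 := by
        have : L (β * z + α) = 0 := if_neg hz
        by_cases hm : β * z + α ∈ S
        · rw [indicator_of_mem hm, this]
        · rw [indicator_of_notMem hm]
      rw [hL0, zero_add]
      push Not at hz
      by_cases hm : β * z + (α - 1) ∈ S
      · rw [indicator_of_mem hm, indicator_of_mem (by rw [mem_preimage, hT]; exact hm)]
        simp only [hR, e2]
        rw [if_neg (by linarith)]
      · rw [indicator_of_notMem hm, indicator_of_notMem (by rw [mem_preimage, hT]; exact hm)]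
  have h2 : ∀ y, L y + R y = ENNReal.ofReal β * H α β y := by
    intro y
    by_cases hy : y ∈ Ico (0 : ℝ) 1
    · have hy0 := hy.1
      have hy1 := hy.2
      have ht := transfer hβ hα hαβ hy
      have hLy : L y = ENNReal.ofReal (if α ≤ y then h α β ((y - α) / β) else 0) := by
        simp only [hL, if_pos hy.2]
        split_ifs with hc
        · apply H_mem
          constructor
          · exact div_nonneg (by linarith) hβ0.le
          · rw [div_lt_one hβ0]; linarith
        · rw [ENNReal.ofReal_zero]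
          apply H_notMem
          intro hcon
          have := hcon.1
          rw [le_div_iff₀ hβ0] at this
          linarith
      have hRy : R y = ENNReal.ofReal (if y < α + β - 1 then h α β ((y + 1 - α) / β) else 0) := by
        simp only [hR, if_neg (not_lt.2 hy.1)]
        split_ifs with hc
        · apply H_mem
          constructor
          · exact div_nonneg (by linarith) hβ0.le
          · rw [div_lt_one hβ0]; linarith
        · rw [ENNReal.ofReal_zero]
          apply H_notMem
          intro hcon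
          have := hcon.2
          rw [div_lt_one hβ0] at this
          linarith
      rw [hLy, hRy, ← ENNReal.ofReal_add, ht, ENNReal.ofReal_mul hβ0.le, H_mem hy]
      · split_ifs with hc
        · apply hnn
          constructor
          · exact div_nonneg (by linarith) hβ0.le
          · rw [div_lt_one hβ0]; linarith
        · exact le_rfl
      · split_ifs with hc
        · apply hnn
          constructor
          · exact div_nonneg (by linarith) hβ0.le
          · rw [div_lt_one hβ0]; linarith
        · exact le_rfl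
    · rw [H_notMem hy, mul_zero]
      rw [mem_Ico, not_and_or, not_le, not_lt] at hy
      rcases hy with hy | hy
      · have e1 : L y = 0 := by
          simp only [hL]
          rw [if_pos (by linarith)]
          apply H_notMem
          intro hcon
          have := hcon.1
          rw [le_div_iff₀ hβ0] at this
          linarith
        have e2 : R y = 0 := if_pos hy
        rw [e1, e2, add_zero]
      · have e1 : L y = 0 := if_neg (not_lt.2 hy)
        have e2 : R y = 0 := by
          simp only [hR]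
          rw [if_neg (by linarith)]
          apply H_notMem
          intro hcon
          have := hcon.2
          rw [div_lt_one hβ0] at this
          linarith
        rw [e1, e2, add_zero]
  simp only [h1]
  have hLm' : Measurable fun z => S.indicator L (β * z + α) := (hLm.indicator hS).comp (by fun_prop)
  rw [lintegral_add_left hLm',
    affine_lintegral hβ0 α (hLm.indicator hS), affine_lintegral hβ0 (α - 1) (hRm.indicator hS),
    ← mul_add, ← lintegral_add_left (hLm.indicator hS)]
  have h3 : ∀ y, S.indicator L y + S.indicator R y = ENNReal.ofReal β * S.indicator (H α β) y := by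
    intro y
    by_cases hm : y ∈ S
    · rw [indicator_of_mem hm, indicator_of_mem hm, indicator_of_mem hm, h2]
    · rw [indicator_of_notMem hm, indicator_of_notMem hm, indicator_of_notMem hm]
      simp
  simp only [h3]
  rw [lintegral_const_mul _ ((measurable_H hβ).indicator hS), ← mul_assoc,
    ← ENNReal.ofReal_mul (by positivity), inv_mul_cancel₀ hβ0.ne', ENNReal.ofReal_one, one_mul]

lemma μ_finite (hβ : 1 < β) (S : Set ℝ) : μ α β S ≠ ⊤ := by
  have h1 : μ α β univ < ⊤ := by
    unfold μ
    rw [withDensity_apply _ MeasurableSet.univ, Measure.restrict_univ]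
    calc ∫⁻ y, H α β y ≤ ∫⁻ y, (Ico (0 : ℝ) 1).indicator
          (fun _ => ENNReal.ofReal (∑' i : ℕ, (β⁻¹) ^ i)) y := by
          refine lintegral_mono fun y => ?_
          unfold H
          refine indicator_le_indicator ?_
          exact ENNReal.ofReal_le_ofReal ((le_abs_self _).trans (h_bound hβ y))
      _ = ENNReal.ofReal (∑' i : ℕ, (β⁻¹) ^ i) * volume (Ico (0 : ℝ) 1) := by
          rw [lintegral_indicator measurableSet_Ico, setLIntegral_const]
      _ < ⊤ := by
          rw [Real.volume_Ico]
          exact ENNReal.mul_lt_top ENNReal.ofReal_lt_top ENNReal.ofReal_lt_top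
  exact ((measure_mono (subset_univ S)).trans_lt h1).ne

lemma μ_pos {κ : ℝ} (hκ : 0 < κ) (hpos : ∀ y ∈ Ico (0 : ℝ) 1, κ ≤ h α β y)
    {S : Set ℝ} (hS : IsOpen S) (hne : S.Nonempty) (hsub : S ⊆ Ico (0 : ℝ) 1) :
    0 < μ α β S := by
  unfold μ
  rw [withDensity_apply _ hS.measurableSet]
  calc 0 < ENNReal.ofReal κ * volume S :=
        ENNReal.mul_pos (ENNReal.ofReal_pos.2 hκ).ne' (hS.measure_pos volume hne).ne'
    _ = ∫⁻ _ in S, ENNReal.ofReal κ := (setLIntegral_const _ _).symm
    _ ≤ ∫⁻ y in S, H α β y := by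
        refine setLIntegral_mono' hS.measurableSet fun y hy => ?_
        rw [H_mem (hsub hy)]
        exact ENNReal.ofReal_le_ofReal (hpos y (hsub hy))

/-- intervals expand until they contain the discontinuity -/
lemma expand (hβ : 1 < β) (hα : 0 ≤ α) (hαβ : α + β ≤ 2) {u v : ℝ} (hu : 0 ≤ u) (huv : u < v)
    (hv : v ≤ 1) : ∃ (k : ℕ) (e x₀ : ℝ), (∀ x ∈ Ioo u v, (T α β)^[k] x = β ^ k * x + e) ∧
      x₀ ∈ Ioo u v ∧ β * (β ^ k * x₀ + e) + α = 1 := by
  have hβ0 : 0 < β := by linarith
  by_contra hcon
  push Not at hcon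
  have hall : ∀ k : ℕ, ∃ e : ℝ, ∀ x ∈ Ioo u v, (T α β)^[k] x = β ^ k * x + e := by
    intro k
    induction k with
    | zero => exact ⟨0, fun x _ => by simp⟩
    | succ k ih =>
      obtain ⟨e, he⟩ := ih
      have h1 := fun x₀ => hcon k e x₀ he
      have hpk : (0 : ℝ) < β ^ k := by positivity
      set xs : ℝ := ((1 - α) / β - e) / β ^ k with hxs
      have hxs1 : β * (β ^ k * xs + e) + α = 1 := by
        rw [hxs]; field_simp; ring
      have hxs2 : xs ≤ u ∨ v ≤ xs := by
        by_contra h2
        push Not at h2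
        exact h1 xs h2 hxs1
      rcases hxs2 with h2 | h2
      · refine ⟨β * e + α - 1, fun x hx => ?_⟩
        rw [iterate_succ_apply', he x hx]
        unfold T
        rw [if_neg]
        · ring
        · push Not
          rw [← hxs1]
          have : xs ≤ x := h2.trans hx.1.le
          have : β ^ k * xs ≤ β ^ k * x := mul_le_mul_of_nonneg_left this hpk.le
          have : β * (β ^ k * xs + e) ≤ β * (β ^ k * x + e) :=
            mul_le_mul_of_nonneg_left (by linarith) hβ0.le
          linarith
      · refine ⟨β * e + α, fun x hx => ?_⟩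
        rw [iterate_succ_apply', he x hx]
        unfold T
        rw [if_pos]
        · ring
        · rw [← hxs1]
          have : x < xs := hx.2.trans_le h2
          have : β ^ k * x < β ^ k * xs := mul_lt_mul_of_pos_left this hpk
          have : β * (β ^ k * x + e) < β * (β ^ k * xs + e) :=
            mul_lt_mul_of_pos_left (by linarith) hβ0
          linarith
  obtain ⟨k, hk⟩ := pow_unbounded_of_one_lt (3 / (v - u)) hβ
  obtain ⟨e, he⟩ := hall k
  have hx1 : u + (v - u) / 3 ∈ Ioo u v := ⟨by linarith, by linarith⟩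
  have hx2 : u + 2 * (v - u) / 3 ∈ Ioo u v := ⟨by linarith, by linarith⟩
  have m1 := iter_mem' hβ hα hαβ (s := u + (v - u) / 3)
    ⟨by linarith [hx1.1], by linarith [hx1.2]⟩ k
  have m2 := iter_mem' hβ hα hαβ (s := u + 2 * (v - u) / 3)
    ⟨by linarith [hx2.1], by linarith [hx2.2]⟩ k
  rw [he _ hx1] at m1
  rw [he _ hx2] at m2
  have h3 : β ^ k * (v - u) < 3 := by
    have := m1.1
    have := m2.2
    nlinarith
  rw [div_lt_iff₀ (by linarith)] at hk
  linarith

/-- transitivity on the line -/
def Tr (α β : ℝ) : Prop := ∀ u v w₁ w₂ : ℝ, 0 ≤ u → u < v → v ≤ 1 → 0 ≤ w₁ → w₁ < w₂ → w₂ ≤ 1 →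
  ∃ (n : ℕ) (x : ℝ), x ∈ Ioo u v ∧ (T α β)^[n] x ∈ Ioo w₁ w₂

lemma tr_of_pos (hβ : 1 < β) (hα : 0 ≤ α) (hαβ : α + β ≤ 2) {κ : ℝ} (hκ : 0 < κ)
    (hpos : ∀ y ∈ Ico (0 : ℝ) 1, κ ≤ h α β y) : Tr α β := by
  have hβ0 : 0 < β := by linarith
  intro u v w₁ w₂ hu huv hv hw₁ hw hw₂
  by_contra hcon
  push Not at hcon
  set O : Set ℝ := ⋃ n : ℕ, (T α β)^[n] ⁻¹' Ioo w₁ w₂ with hO
  have hOm : MeasurableSet O := MeasurableSet.iUnion fun n =>
    (measurable_T.iterate n) measurableSet_Ioo
  have hOback : ∀ (n : ℕ) (x : ℝ), (T α β)^[n] x ∈ O → x ∈ O := by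
    intro n x hx
    obtain ⟨m, hm⟩ := mem_iUnion.1 hx
    refine mem_iUnion.2 ⟨m + n, ?_⟩
    rw [mem_preimage] at hm ⊢
    rw [iterate_add_apply]
    exact hm
  have hUO : ∀ x ∈ Ioo u v, x ∉ O := by
    intro x hx hxO
    obtain ⟨m, hm⟩ := mem_iUnion.1 hxO
    exact hcon m x hx hm
  have hWO : Ioo w₁ w₂ ⊆ O := fun x hx => mem_iUnion.2 ⟨0, hx⟩
  have hnn : ∀ y ∈ Ico (0 : ℝ) 1, 0 ≤ h α β y := fun y hy => hκ.le.trans (hpos y hy)
  have hpres := preserving hβ hα hαβ hnn
  obtain ⟨k, e, x₀, hk, hx₀, hx₀'⟩ := expand hβ hα hαβ hu huv hv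
  obtain ⟨j, e', x₁, hj, hx₁, hx₁'⟩ := expand hβ hα hαβ hw₁ hw hw₂
  have hdiff : μ α β (O \ (T α β)^[j] ⁻¹' O) = 0 := by
    have h1 := (hpres.iterate j).measure_preimage hOm.nullMeasurableSet
    have h2 : (T α β)^[j] ⁻¹' O ⊆ O := fun x hx => hOback j x hx
    rw [measure_sdiff h2 ((measurable_T.iterate j) hOm).nullMeasurableSet (μ_finite hβ _), h1,
      tsub_self]
  set N : Set ℝ := Ioo w₁ w₂ ∩ (fun x => β ^ j * x + e') ⁻¹' Ioo (β ^ k * u + e) (β ^ k * v + e)
    with hN
  have hNo : IsOpen N := isOpen_Ioo.inter (isOpen_Ioo.preimage (by fun_prop))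
  have hpk : (0 : ℝ) < β ^ k := by positivity
  have hNne : N.Nonempty := by
    refine ⟨x₁, hx₁, ?_⟩
    have e1 : β ^ j * x₁ + e' = β ^ k * x₀ + e := by
      have : β * (β ^ j * x₁ + e') = β * (β ^ k * x₀ + e) := by linarith
      exact mul_left_cancel₀ hβ0.ne' this
    simp only [mem_preimage, e1]
    constructor
    · have := mul_lt_mul_of_pos_left hx₀.1 hpk; linarith
    · have := mul_lt_mul_of_pos_left hx₀.2 hpk; linarith
  have hNsub : N ⊆ Ico (0 : ℝ) 1 := fun x hx =>
    ⟨by have := hx.1.1; linarith, by have := hx.1.2; linarith⟩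
  have hNO : N ⊆ O \ (T α β)^[j] ⁻¹' O := by
    intro x hx
    refine ⟨hWO hx.1, fun hxO => ?_⟩
    have h1 : (T α β)^[j] x = β ^ j * x + e' := hj x hx.1
    set x' : ℝ := (β ^ j * x + e' - e) / β ^ k with hx'
    have h2 : β ^ k * x' + e = β ^ j * x + e' := by
      rw [hx']; field_simp; ring
    have h3 : x' ∈ Ioo u v := by
      have h4 := hx.2
      simp only [mem_preimage] at h4
      rw [← h2] at h4
      constructor
      · have := h4.1
        exact lt_of_mul_lt_mul_left (by linarith) hpk.le
      · have := h4.2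
        exact lt_of_mul_lt_mul_left (by linarith) hpk.le
    have h4 : (T α β)^[k] x' = (T α β)^[j] x := by rw [hk x' h3, h1, h2]
    apply hUO x' h3
    apply hOback k
    rw [h4]
    exact hxO
  have h1 := μ_pos hκ hpos hNo hNne hNsub
  have h2 := measure_mono (μ := μ α β) hNO
  rw [hdiff] at h2
  exact absurd h1 (not_lt.2 h2)

/-- transitivity for small translations -/
lemma tr_small (hβ : 1 < β) (hα : 0 ≤ α) (hαβ : α + β ≤ 2) (hβ2 : β * β < β + 1)
    (hc : α ≤ 1 - 1 / β) : Tr α β := by
  obtain ⟨κ, hκ, hpos⟩ := right_pos hβ hα hαβ hβ2 hc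
  obtain ⟨κ', hκ', hpos'⟩ := h_pos hβ hα hαβ hκ hpos
  exact tr_of_pos hβ hα hαβ hκ' hpos'

/-- iterates are affine to the right of each point -/
lemma right_affine (hβ : 1 < β) {z : ℝ} (n : ℕ) :
    ∃ ε : ℝ, 0 < ε ∧ ∀ z' : ℝ, z ≤ z' → z' < z + ε → ∀ i, i ≤ n →
      (T α β)^[i] z' = (T α β)^[i] z + β ^ i * (z' - z) := by
  have hβ0 : 0 < β := by linarith
  induction n with
  | zero =>
    refine ⟨1, one_pos, fun z' _ _ i hi => ?_⟩
    have : i = 0 := by omega
    subst this
    simp
  | succ n ih =>
    obtain ⟨ε, hε, h1⟩ := ih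
    have hpn : (0 : ℝ) < β ^ (n + 1) := by positivity
    by_cases hc : β * (T α β)^[n] z + α < 1
    · refine ⟨min ε ((1 - (β * (T α β)^[n] z + α)) / β ^ (n + 1)), lt_min hε (div_pos
        (by linarith) hpn), fun z' hz hz' i hi => ?_⟩
      have hz0 := min_le_left ε ((1 - (β * (T α β)^[n] z + α)) / β ^ (n + 1))
      have hz1 : z' < z + ε := by linarith
      have hz2 : z' - z < (1 - (β * (T α β)^[n] z + α)) / β ^ (n + 1) := by
        have := min_le_right ε ((1 - (β * (T α β)^[n] z + α)) / β ^ (n + 1))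
        linarith
      rcases Nat.lt_or_ge i (n + 1) with hin | hin
      · exact h1 z' hz hz1 i (by omega)
      · have : i = n + 1 := by omega
        subst this
        rw [iterate_succ_apply', iterate_succ_apply', h1 z' hz hz1 n le_rfl]
        rw [lt_div_iff₀ hpn] at hz2
        have e1 : β * ((T α β)^[n] z + β ^ n * (z' - z)) + α =
            β * (T α β)^[n] z + α + β ^ (n + 1) * (z' - z) := by ring
        unfold T at e1 hz2 hc ⊢
        rw [if_pos hc, e1, if_pos (by linarith)]
    · refine ⟨ε, hε, fun z' hz hz' i hi => ?_⟩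
      rcases Nat.lt_or_ge i (n + 1) with hin | hin
      · exact h1 z' hz hz' i (by omega)
      · have : i = n + 1 := by omega
        subst this
        rw [iterate_succ_apply', iterate_succ_apply', h1 z' hz hz' n le_rfl]
        have e1 : β * ((T α β)^[n] z + β ^ n * (z' - z)) + α =
            β * (T α β)^[n] z + α + β ^ (n + 1) * (z' - z) := by ring
        have e2 : 0 ≤ β ^ (n + 1) * (z' - z) := mul_nonneg hpn.le (by linarith)
        unfold T at e1 hc ⊢
        rw [if_neg hc, e1, if_neg (by push Not at hc ⊢; linarith)]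
        ring

/-- reflection -/
lemma tr_reflect (hβ : 1 < β) (hα : 0 ≤ α) (hαβ : α + β ≤ 2) (hTr : Tr (2 - β - α) β) :
    Tr α β := by
  have hβ0 : 0 < β := by linarith
  intro u v w₁ w₂ hu huv hv hw₁ hw hw₂
  obtain ⟨n, z, hz, hzn⟩ := hTr (1 - v) (1 - u) (1 - w₂) (1 - w₁) (by linarith) (by linarith)
    (by linarith) (by linarith) (by linarith) (by linarith)
  set T' := T (2 - β - α) β with hT'
  obtain ⟨ε, hε, haff⟩ := right_affine (α := 2 - β - α) hβ (z := z) n
  have hpn : (0 : ℝ) < β ^ n := by positivity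
  have hm0 : 0 < min ε (min (1 - u - z) ((1 - w₁ - T'^[n] z) / β ^ n)) :=
    lt_min hε (lt_min (by linarith [hz.2]) (div_pos (by linarith [hzn.2]) hpn))
  set δ := min ε (min (1 - u - z) ((1 - w₁ - T'^[n] z) / β ^ n)) with hδ
  have hδ1 : δ ≤ ε := min_le_left _ _
  have hδ2 : δ ≤ 1 - u - z := (min_le_right _ _).trans (min_le_left _ _)
  have hδ3 : δ ≤ (1 - w₁ - T'^[n] z) / β ^ n := (min_le_right _ _).trans (min_le_right _ _)
  set z' := z + δ / 2 with hz'
  have hzz : z < z' := by linarith
  have haff' : ∀ i, i ≤ n → T'^[i] z' = T'^[i] z + β ^ i * (z' - z) :=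
    haff z' hzz.le (by linarith)
  have hzI : z ∈ Ico (0 : ℝ) 1 := ⟨by linarith [hz.1], by linarith [hz.2]⟩
  have hzI' : z' ∈ Ico (0 : ℝ) 1 := ⟨by linarith [hz.1], by linarith [hz.2]⟩
  have hmem : ∀ i, i ≤ n → 0 < T'^[i] z' ∧ T'^[i] z' < 1 := by
    intro i hi
    have h1 := (iter_mem' (α := 2 - β - α) hβ (by linarith) (by linarith) hzI i).1
    have h2 := (iter_mem' (α := 2 - β - α) hβ (by linarith) (by linarith) hzI' i).2
    refine ⟨?_, h2⟩
    rw [haff' i hi]
    have h3 : 0 < β ^ i * (z' - z) := mul_pos (by positivity) (by linarith)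
    change 0 ≤ T'^[i] z at h1
    linarith
  have hconj : ∀ i, i ≤ n → (T α β)^[i] (1 - z') = 1 - T'^[i] z' := by
    intro i
    induction i with
    | zero => intro _; rfl
    | succ i ih =>
      intro hi
      rw [iterate_succ_apply', iterate_succ_apply', ih (by omega)]
      have h1 := hmem (i + 1) hi
      rw [iterate_succ_apply'] at h1
      set w := T'^[i] z' with hw
      rw [hT'] at h1 ⊢
      unfold T at h1 ⊢
      by_cases hE : β * w + (2 - β - α) < 1
      · rw [if_pos hE] at h1 ⊢
        rw [if_neg (by push Not; linarith)]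
        ring
      · rw [if_neg hE] at h1 ⊢
        rw [if_pos (by linarith)]
        ring
  refine ⟨n, 1 - z', ⟨by linarith, by linarith [hz.1]⟩, ?_⟩
  rw [hconj n le_rfl, haff' n le_rfl]
  have h4 : β ^ n * (z' - z) < 1 - w₁ - T'^[n] z := by
    have h5 : z' - z < (1 - w₁ - T'^[n] z) / β ^ n := by linarith
    rw [lt_div_iff₀ hpn] at h5
    linarith
  have h6 : 0 < β ^ n * (z' - z) := mul_pos hpn (by linarith)
  constructor
  · linarith
  · linarith [hzn.1]

/-- transitivity on the two regions -/
lemma tr_main (hβ : 1 < β) (hα : 0 ≤ α) (hαβ : α + β ≤ 2) (hβ2 : β * β < β + 1)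
    (hc : α ≤ 1 - 1 / β ∨ 1 + 1 / β - β ≤ α) : Tr α β := by
  rcases hc with hc | hc
  · exact tr_small hβ hα hαβ hβ2 hc
  · exact tr_reflect hβ hα hαβ (tr_small hβ (by linarith) (by linarith) hβ2 (by linarith))

end

end Pool.Agent.Q188.PD
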